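import Pool.Agent.Helper74.RG.Defs

/-!
# Smooth representations of a group with an open normal subgroup mapping onto `ℤ_p ^ s`
-/

set_option autoImplicit false

namespace Pool.Agent.Helper74.RG

open Module

/-- `V` normal of finite index in `G`, `φ : V → ℤ_p ^ s` a surjective homomorphism,
`A j = {v ∈ V | p ^ j ∣ φ v}` normal in `G`. -/
structure Dat (p s : ℕ) [Fact p.Prime] (G : Type) [Group G] where
  V : Subgroup G
  φ : V → (Fin s → ℤ_[p])
  mul : ∀ σ τ, φ (σ * τ) = φ σ + φ τ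
  surj : Function.Surjective φ
  t : Fin s → V
  ht : ∀ i, φ (t i) = Pi.single i 1
  A : ℕ → Subgroup G
  mem_A : ∀ j g, g ∈ A j ↔ ∃ h : g ∈ V, ∀ i, (p : ℤ_[p]) ^ j ∣ φ ⟨g, h⟩ i
  normal : ∀ j, (A j).Normal
  fin : V.index ≠ 0

variable {p s : ℕ} [Fact p.Prime] {G : Type} [Group G] (D : Dat p s G)

section

variable {H : Type} [AddCommGroup H] [Module (ZMod p) H]

/-- smooth representations. -/
def Sm (ρ : G →* Module.End (ZMod p) H) : Prop := ∀ h, ∃ j, ∀ a ∈ D.A j, ρ a h = h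

/-- the operators `t i - 1`. -/
noncomputable def Dat.T (ρ : G →* Module.End (ZMod p) H) : Fin s → Module.End (ZMod p) H :=
  fun i => ρ (D.t i : G) - 1

/-- the vectors fixed by a subgroup. -/
def fixed (ρ : G →* Module.End (ZMod p) H) (U : Subgroup G) : Submodule (ZMod p) H where
  carrier := {h | ∀ g ∈ U, ρ g h = h}
  add_mem' := fun ha hb g hg => by rw [map_add, ha g hg, hb g hg]
  zero_mem' := fun g _ => map_zero _
  smul_mem' := fun c x hx g hg => by rw [map_smul, hx g hg]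

theorem mem_fixed {ρ : G →* Module.End (ZMod p) H} {U : Subgroup G} {h : H} :
    h ∈ fixed ρ U ↔ ∀ g ∈ U, ρ g h = h := Iff.rfl

end

/-- locally constant functions `G / N → 𝔽_p ^ n`. -/
def Cof (n : ℕ) : Submodule (ZMod p) (G → (Fin n → ZMod p)) where
  carrier := {f | ∃ j, ∀ x, ∀ a ∈ D.A j, f (x * a) = f x}
  add_mem' := by
    rintro f g ⟨j, hj⟩ ⟨l, hl⟩
    have hmono : ∀ {a b : ℕ}, a ≤ b → D.A b ≤ D.A a := by
      intro a b hab g hg
      rw [D.mem_A] at hg ⊢
      obtain ⟨h, h1⟩ := hg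
      exact ⟨h, fun i => (pow_dvd_pow _ hab).trans (h1 i)⟩
    refine ⟨max j l, fun x a ha => ?_⟩
    rw [Pi.add_apply, Pi.add_apply, hj x a (hmono (le_max_left _ _) ha),
      hl x a (hmono (le_max_right _ _) ha)]
  zero_mem' := ⟨0, fun _ _ _ => rfl⟩
  smul_mem' := by
    rintro c f ⟨j, hj⟩
    exact ⟨j, fun x a ha => by rw [Pi.smul_apply, Pi.smul_apply, hj x a ha]⟩

theorem Cof.stab (n : ℕ) (g : G) (f : G → (Fin n → ZMod p)) (hf : f ∈ Cof D n) :
    (fun x => f (x * g)) ∈ Cof D n := by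
  obtain ⟨j, hj⟩ := hf
  refine ⟨j, fun x a ha => ?_⟩
  have h1 : x * a * g = x * g * (g⁻¹ * a * g) := by group
  have h2 : g⁻¹ * a * g ∈ D.A j := by
    have := (D.normal j).conj_mem a ha g⁻¹
    rwa [inv_inv] at this
  simp only
  rw [h1, hj _ _ h2]

/-- right translations on `Cof`. -/
noncomputable def Cof.ρ (n : ℕ) : G →* Module.End (ZMod p) (Cof D n) where
  toFun g :=
    { toFun := fun f => ⟨fun x => f.1 (x * g), Cof.stab D n g f.1 f.2⟩
      map_add' := fun f f' => rfl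
      map_smul' := fun c f => rfl }
  map_one' := by
    apply LinearMap.ext
    intro f
    apply Subtype.ext
    funext x
    change f.1 (x * 1) = f.1 x
    rw [mul_one]
  map_mul' g g' := by
    apply LinearMap.ext
    intro f
    apply Subtype.ext
    funext x
    change f.1 (x * (g * g')) = f.1 (x * g * g')
    rw [mul_assoc]

theorem Cof.ρ_apply (n : ℕ) (g : G) (f : Cof D n) (x : G) :
    (Cof.ρ D n g f).1 x = f.1 (x * g) := rfl

/-- a chain of subgroups from `V` to `G`, each step given by a character of order `p ^ 2` trivial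
on `A 1`. -/
def HasChain : Prop :=
  ∃ (n : ℕ) (U : ℕ → Subgroup G), U 0 = D.V ∧ U n = ⊤ ∧ ∀ i < n, U i ≤ U (i + 1) ∧
    ∃ ψ : U (i + 1) →* Multiplicative (ZMod (p ^ 2)), Function.Surjective ψ ∧
      (∀ x : U (i + 1), (x : G) ∈ U i ↔ p ∣ (Multiplicative.toAdd (ψ x)).val) ∧
      (∀ x : U (i + 1), (x : G) ∈ D.A 1 → ψ x = 1)

end Pool.Agent.Helper74.RG
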