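import Pool.Agent.Helper25.ETCTowE
import Pool.Agent.Helper74.RG.DefsG

/-!
# Kummer data over a finite Galois extension and the representation on `M*/M*^p`
-/

set_option autoImplicit false

namespace Pool.Agent.Helper74.RG

open Module Pool.Agent.Helper25.ETC

variable {F K : Type} [Field F] [Field K] [Algebra F K] {p : ℕ} [Fact p.Prime] {s : ℕ}

/-- the Kummer surjection `Gal(K/E) → ℤ_p ^ s`, with its kernels modulo `p ^ j`. -/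
structure KD (E : IntermediateField F K) (φ : E.fixingSubgroup → (Fin s → ℤ_[p])) : Prop where
  Z : Zp E φ
  char : ∀ (j : ℕ) (σ : E.fixingSubgroup), (∀ i, (p : ℤ_[p]) ^ j ∣ φ σ i) ↔
    ∀ y : K, y ^ (p ^ j) ∈ E → (σ : K ≃ₐ[F] K) y = y

section

variable {E : IntermediateField F K} {φ : E.fixingSubgroup → (Fin s → ℤ_[p])}

theorem KD.mem_W (X : KD E φ) {j : ℕ}
    {σ : K ≃ₐ[F] K} : σ ∈ X.Z.W (Rl p s j) ↔ σ ∈ E.fixingSubgroup ∧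
      ∀ y : K, y ^ (p ^ j) ∈ E → σ y = y := by
  rw [X.Z.mem_W]
  constructor
  · rintro ⟨h, h1⟩
    exact ⟨h, (X.char j ⟨σ, h⟩).mp h1⟩
  · rintro ⟨h, h1⟩
    exact ⟨h, (X.char j ⟨σ, h⟩).mpr h1⟩

theorem mem_of_gal (hgal : ∀ (σ : K ≃ₐ[F] K), ∀ x ∈ E, σ x ∈ E) (σ : K ≃ₐ[F] K) {x : K}
    (h : σ x ∈ E) : x ∈ E := by
  have h1 := hgal σ⁻¹ _ h
  have h2 : σ⁻¹ (σ x) = (σ⁻¹ * σ) x := (AlgEquiv.mul_apply _ _ _).symm
  rwa [h2, inv_mul_cancel, AlgEquiv.one_apply] at h1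

theorem KD.normal (X : KD E φ) (hgal : ∀ (σ : K ≃ₐ[F] K), ∀ x ∈ E, σ x ∈ E) (j : ℕ) :
    (X.Z.W (Rl p s j)).Normal := by
  constructor
  intro σ hσ g
  rw [X.mem_W] at hσ ⊢
  obtain ⟨h1, h2⟩ := hσ
  have hg : ∀ y, g (g⁻¹ y) = y := by
    intro y
    rw [← AlgEquiv.mul_apply, mul_inv_cancel, AlgEquiv.one_apply]
  constructor
  · rw [IntermediateField.mem_fixingSubgroup_iff] at h1 ⊢
    intro x hx
    rw [AlgEquiv.mul_apply, AlgEquiv.mul_apply, h1 _ (hgal g⁻¹ x hx), hg]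
  · intro y hy
    rw [AlgEquiv.mul_apply, AlgEquiv.mul_apply, h2 (g⁻¹ y) (by
      rw [← map_pow]; exact hgal _ _ hy), hg]

theorem KD.stabM (X : KD E φ) (hgal : ∀ (σ : K ≃ₐ[F] K), ∀ x ∈ E, σ x ∈ E)
    (g : K ≃ₐ[F] K) : ∀ x ∈ X.Z.M, g x ∈ X.Z.M := by
  intro x hx
  rw [X.Z.mem_M] at hx ⊢
  intro σ hσ
  have hσj : ∀ j, (σ : K ≃ₐ[F] K) ∈ X.Z.W (Rl p s j) := by
    intro j
    rw [X.Z.mem_W]
    exact ⟨σ.2, by rw [Subtype.coe_eta, hσ]; exact (Rl p s j).zero_mem⟩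
  have h1 : ∀ j, g⁻¹ * (σ : K ≃ₐ[F] K) * g ∈ X.Z.W (Rl p s j) := by
    intro j
    have := (X.normal hgal j).conj_mem _ (hσj j) g⁻¹
    rwa [inv_inv] at this
  have hV : g⁻¹ * (σ : K ≃ₐ[F] K) * g ∈ E.fixingSubgroup := ((X.mem_W).mp (h1 0)).1
  have h2 : φ ⟨g⁻¹ * (σ : K ≃ₐ[F] K) * g, hV⟩ = 0 := by
    funext i
    have h3 : ∀ j : ℕ, (p : ℤ_[p]) ^ j ∣ φ ⟨g⁻¹ * (σ : K ≃ₐ[F] K) * g, hV⟩ i := by
      intro j
      obtain ⟨_, h4⟩ := X.Z.mem_W.mp (h1 j)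
      exact h4 i
    by_contra h5
    have h6 : ∀ n : ℕ, n ≤ (φ ⟨g⁻¹ * (σ : K ≃ₐ[F] K) * g, hV⟩ i).valuation := by
      intro n
      exact (PadicInt.mem_span_pow_iff_le_valuation _ h5 n).mp
        (Ideal.mem_span_singleton.mpr (h3 n))
    exact absurd (h6 _) (Nat.not_succ_le_self _)
  have h3 := hx _ h2
  have h4 := congrArg g h3
  change g ((g⁻¹ * (σ : K ≃ₐ[F] K) * g) x) = g x at h4
  rw [← AlgEquiv.mul_apply] at h4
  have h5 : g * (g⁻¹ * (σ : K ≃ₐ[F] K) * g) = σ * g := by group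
  rw [h5] at h4
  exact h4

/-- the group data. -/
noncomputable def KD.dat [IsGalois F K] [FiniteDimensional F E] (X : KD E φ)
    (hgal : ∀ (σ : K ≃ₐ[F] K), ∀ x ∈ E, σ x ∈ E) : Dat p s (K ≃ₐ[F] K) where
  V := E.fixingSubgroup
  φ := φ
  mul := X.Z.mul
  surj := X.Z.surj
  t := fun i => (X.Z.surj (Pi.single i 1)).choose
  ht := fun i => (X.Z.surj (Pi.single i 1)).choose_spec
  A := fun j => X.Z.W (Rl p s j)
  mem_A := fun j g => X.Z.mem_W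
  normal := fun j => X.normal hgal j
  fin := by
    have h1 := Subgroup.quotient_finite_of_isOpen E.fixingSubgroup
      (IntermediateField.fixingSubgroup_isOpen E)
    exact (Subgroup.finiteIndex_of_finite_quotient (H := E.fixingSubgroup)).index_ne_zero

/-- the representation of the whole Galois group on `M*/M*^p`. -/
noncomputable def KD.rep (X : KD E φ) (hgal : ∀ (σ : K ≃ₐ[F] K), ∀ x ∈ E, σ x ∈ E) :
    (K ≃ₐ[F] K) →* Module.End (ZMod p) (VV p X.Z.M) where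
  toFun σ := autV p σ X.Z.M (X.stabM hgal σ)
  map_one' := by
    apply LinearMap.ext
    intro u
    obtain ⟨x, hx, hx0, rfl⟩ := mkc_mku_surj u
    rfl
  map_mul' σ τ := by
    apply LinearMap.ext
    intro u
    obtain ⟨x, hx, hx0, rfl⟩ := mkc_mku_surj u
    rfl

theorem KD.rep_apply (X : KD E φ) (hgal : ∀ (σ : K ≃ₐ[F] K), ∀ x ∈ E, σ x ∈ E)
    (σ : K ≃ₐ[F] K) {x : K} (hx : x ∈ X.Z.M) (hx0 : x ≠ 0) :
    X.rep hgal σ (mkc p X.Z.M (mku x hx hx0)) =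
      mkc p X.Z.M (mku (σ x) (X.stabM hgal σ x hx) ((_root_.map_ne_zero _).mpr hx0)) := rfl

theorem KD.sm [IsGalois F K] [FiniteDimensional F E] (X : KD E φ)
    (hgal : ∀ (σ : K ≃ₐ[F] K), ∀ x ∈ E, σ x ∈ E) : Sm (X.dat hgal) (X.rep hgal) := by
  intro u
  obtain ⟨x, hx, hx0, rfl⟩ := mkc_mku_surj u
  obtain ⟨l, hl⟩ := X.Z.exists_l hx
  refine ⟨l, fun a ha => ?_⟩
  rw [X.rep_apply]
  apply mkc_eq_of_val
  rw [mku_val, mku_val]
  obtain ⟨h1, h2⟩ := X.Z.mem_W.mp ha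
  exact X.Z.mem_L.mp hl ⟨a, h1⟩ h2

end

end Pool.Agent.Helper74.RG
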