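import Pool.Agent.Helper74.RG.Blocks

/-!
# The rank of the dual is divisible by the index
-/

set_option autoImplicit false

namespace Pool.Agent.Helper74.RG

open Module

variable {p s : ℕ} [Fact p.Prime] {G : Type} [Group G] (D : Dat p s G)
  {H : Type} [AddCommGroup H] [Module (ZMod p) H] {ρ : G →* Module.End (ZMod p) H}

/-- the quotient representation. -/
noncomputable def quotRep (ρ : G →* Module.End (ZMod p) H) (W : Submodule (ZMod p) H)
    (hW : ∀ g, ∀ h ∈ W, ρ g h ∈ W) : G →* Module.End (ZMod p) (H ⧸ W) where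
  toFun g := W.mapQ W (ρ g) (fun h hh => hW g h hh)
  map_one' := by
    apply Submodule.linearMap_qext
    apply LinearMap.ext
    intro h
    simp
  map_mul' g g' := by
    apply Submodule.linearMap_qext
    apply LinearMap.ext
    intro h
    simp

theorem quotRep_mk (ρ : G →* Module.End (ZMod p) H) (W : Submodule (ZMod p) H)
    (hW : ∀ g, ∀ h ∈ W, ρ g h ∈ W) (g : G) (h : H) :
    quotRep ρ W hW g (W.mkQ h) = W.mkQ (ρ g h) := rfl

theorem quotRep_sm {ρ : G →* Module.End (ZMod p) H} (hs : Sm D ρ) (W : Submodule (ZMod p) H)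
    (hW : ∀ g, ∀ h ∈ W, ρ g h ∈ W) : Sm D (quotRep ρ W hW) := by
  intro u
  obtain ⟨h, rfl⟩ := W.mkQ_surjective u
  obtain ⟨j, hj⟩ := hs h
  exact ⟨j, fun a ha => by rw [quotRep_mk, hj a ha]⟩

theorem T_map {H' : Type} [AddCommGroup H'] [Module (ZMod p) H']
    {ρ' : G →* Module.End (ZMod p) H'} (f : H →ₗ[ZMod p] H') (hf : ∀ g h, f (ρ g h) = ρ' g (f h))
    (i : Fin s) (h : H) : f (D.T ρ i h) = D.T ρ' i (f h) := by
  change f (ρ _ h - h) = ρ' _ (f h) - f h
  rw [map_sub, hf]

/-- the rank of the dual of `Cof`. -/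
theorem Cof.rank (n : ℕ) :
    FiniteDimensional (ZMod p) (inv (D.T (Cof.ρ D n))) ∧
    finrank (MvPowerSeries (Fin s) (ZMod p)) (DR (Cof.sm D n).ln) = n * D.V.index := by
  obtain ⟨h1, h2⟩ := Cof.finrank_fixed D n
  have h3 := (Cof.sm D n).inv_eq
  rw [← h3] at h1 h2
  refine ⟨h1, ?_⟩
  rw [rank_of_NS (Cof.sm D n).ln (NS_of_coreg (Cof.sm D n).ln (Cof.coreg D n)), h2]

/-- enough functionals -/
theorem exists_dual_basis (W : Submodule (ZMod p) H) [FiniteDimensional (ZMod p) W] :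
    ∃ (n : ℕ) (x : Fin n → Module.Dual (ZMod p) H),
      ∀ h ∈ W, (∀ i, x i h = 0) → h = 0 := by
  obtain ⟨c, hc⟩ := W.exists_isCompl
  set π := W.projectionOnto c hc with hπ
  let b := Module.finBasis (ZMod p) W
  refine ⟨_, fun i => (b.coord i).comp π, fun h hh h0 => ?_⟩
  have h1 : π h = ⟨h, hh⟩ := Submodule.projectionOnto_apply_left hc ⟨h, hh⟩
  have h2 : (⟨h, hh⟩ : W) = 0 := by
    apply b.ext_elem
    intro i
    have := h0 i
    rw [LinearMap.comp_apply, h1] at this
    rw [map_zero, Finsupp.zero_apply]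
    exact this
  exact congrArg Subtype.val h2

theorem dvd_rank_aux (hch : HasChain D) (j : ℕ) : j ≤ s → ∀ (H : Type) [AddCommGroup H]
    [Module (ZMod p) H] (ρ : G →* Module.End (ZMod p) H) (hs : Sm D ρ)
    (_ : FiniteDimensional (ZMod p) (inv (D.T ρ))) (_ : Coreg (D.T ρ) (s - j)),
    D.V.index ∣ finrank (MvPowerSeries (Fin s) (ZMod p)) (DR hs.ln) := by
  induction j with
  | zero =>
    intro _ H _ _ ρ hs hfin hco
    have hNS : NS (D.T ρ) := NS_of_coreg hs.ln (by simpa using hco)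
    rw [rank_of_NS hs.ln hNS, hs.inv_eq]
    rw [hs.inv_eq] at hfin
    exact index_dvd_of_NS D hch hs hNS
  | succ j ih =>
    intro hj H _ _ ρ hs hfin hco
    rw [hs.inv_eq] at hfin
    obtain ⟨n, x, hx⟩ := exists_dual_basis (fixed ρ D.V)
    obtain ⟨f, hf, hfe⟩ := Cof.embed hs x hx
    obtain ⟨hcf, hcr⟩ := Cof.rank D n
    have hW : ∀ g, ∀ c ∈ LinearMap.range f, Cof.ρ D n g c ∈ LinearMap.range f := by
      rintro g _ ⟨h, rfl⟩
      exact ⟨ρ g h, hfe g h⟩
    have hs' := quotRep_sm D (Cof.sm D n) (LinearMap.range f) hW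
    have eg : ∀ i h, (LinearMap.range f).mkQ (D.T (Cof.ρ D n) i h) =
        D.T (quotRep (Cof.ρ D n) (LinearMap.range f) hW) i ((LinearMap.range f).mkQ h) :=
      fun i h => T_map D _ (fun g h => (quotRep_mk _ _ hW g h).symm) i h
    have ef : ∀ i h, f (D.T ρ i h) = D.T (Cof.ρ D n) i (f h) := fun i h => T_map D f hfe i h
    have hfin1 := finite_DR (Cof.sm D n).ln
    obtain ⟨r1, r2, r3⟩ := rank_exact hs.ln (Cof.sm D n).ln hs'.ln f (LinearMap.range f).mkQ hf
      (LinearMap.range f).mkQ_surjective (Submodule.ker_mkQ _).symm ef eg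
    have hfin2 := finite_inv hs'.ln
    have hco' := coreg_snake (Cof.sm D n).ln f (LinearMap.range f).mkQ hf
      (LinearMap.range f).mkQ_surjective (Submodule.ker_mkQ _).symm ef eg hco (Cof.coreg D n)
    have h5 : s - (j + 1) + 1 = s - j := by omega
    rw [h5] at hco'
    have h6 := ih (by omega) _ _ hs' hfin2 hco'
    rw [hcr] at r3
    have h7 : D.V.index ∣ finrank (MvPowerSeries (Fin s) (ZMod p)) (DR hs.ln) +
        finrank (MvPowerSeries (Fin s) (ZMod p)) (DR hs'.ln) := by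
      rw [← r3]; exact Dvd.intro_left _ rfl
    exact (Nat.dvd_add_left h6).mp h7

/-- G9: the rank of the dual is divisible by the index of `V`. -/
theorem dvd_rank (hch : HasChain D) (hs : Sm D ρ) (hfin : FiniteDimensional (ZMod p) (inv (D.T ρ))) :
    D.V.index ∣ finrank (MvPowerSeries (Fin s) (ZMod p)) (DR hs.ln) :=
  dvd_rank_aux D hch s le_rfl H ρ hs hfin (fun i hi => by omega)

end Pool.Agent.Helper74.RG
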