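import Pool.Agent.Helper74.RG.DefsG
import Pool.Agent.Helper55.RG.A1
import Pool.Agent.Helper90.RG.A2
import Pool.Agent.Helper42.RG.A3
import Pool.Agent.Helper80.RG.Growth
import Pool.Agent.Helper36.RG.A6
import Pool.Agent.Helper36.RG.G2
import Pool.Agent.Helper57.RG.G3
import Pool.Agent.Helper57.RG.G4
import Pool.Agent.Helper27.RG.G45
import Pool.Agent.Helper20.RG.G7
import Pool.Agent.Helper47.RG.G8

/-!
# The algebra blocks, collected
-/

set_option autoImplicit false

namespace Pool.Agent.Helper74.RG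

open Module

section A

variable {s : ℕ} {k : Type} [Field k] {H : Type} [AddCommGroup H] [Module k H]
  {T : Fin s → Module.End k H}

theorem finite_DR (hT : LN T) [FiniteDimensional k (inv T)] :
    Module.Finite (MvPowerSeries (Fin s) k) (DR hT) :=
  Pool.Agent.Helper55.RG.finite_DR hT

theorem finite_inv (hT : LN T) [Module.Finite (MvPowerSeries (Fin s) k) (DR hT)] :
    FiniteDimensional k (inv T) :=
  Pool.Agent.Helper55.RG.finite_inv hT

theorem finite_box (hT : LN T) [FiniteDimensional k (inv T)] (q : ℕ) :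
    FiniteDimensional k (box T q) :=
  Pool.Agent.Helper55.RG.finite_box hT q

theorem rank_exact {C H' : Type} [AddCommGroup C] [Module k C] [AddCommGroup H'] [Module k H']
    {TC : Fin s → Module.End k C} {T' : Fin s → Module.End k H'}
    (hT : LN T) (hTC : LN TC) (hT' : LN T') (f : H →ₗ[k] C) (g : C →ₗ[k] H')
    (hf : Function.Injective f) (hg : Function.Surjective g)
    (hfg : LinearMap.range f = LinearMap.ker g)
    (ef : ∀ i h, f (T i h) = TC i (f h)) (eg : ∀ i h, g (TC i h) = T' i (g h))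
    [Module.Finite (MvPowerSeries (Fin s) k) (DR hTC)] :
    Module.Finite (MvPowerSeries (Fin s) k) (DR hT) ∧
    Module.Finite (MvPowerSeries (Fin s) k) (DR hT') ∧
    finrank (MvPowerSeries (Fin s) k) (DR hTC) =
      finrank (MvPowerSeries (Fin s) k) (DR hT) + finrank (MvPowerSeries (Fin s) k) (DR hT') :=
  Pool.Agent.Helper90.RG.rank_exact hT hTC hT' f g hf hg hfg ef eg

theorem rank_of_NS (hT : LN T) [FiniteDimensional k (inv T)] (hNS : NS T) :
    finrank (MvPowerSeries (Fin s) k) (DR hT) = finrank k (inv T) :=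
  Pool.Agent.Helper42.RG.rank_of_NS_aux hT hNS
    (fun x hx => Pool.Agent.Helper55.RG.span_top hT x hx)

theorem growth_lower (hT : LN T) [FiniteDimensional k (inv T)] :
    ∃ C : ℕ, ∀ q : ℕ, finrank (MvPowerSeries (Fin s) k) (DR hT) * q ^ s ≤
      finrank k (box T q) + C * q ^ (s - 1) := by
  have := finite_DR hT
  exact Pool.Agent.Helper80.RG.growth_lower' hT (finite_box hT)

theorem growth_upper (hT : LN T) [FiniteDimensional k (inv T)] :
    ∃ C : ℕ, ∀ q : ℕ, finrank k (box T q) ≤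
      finrank (MvPowerSeries (Fin s) k) (DR hT) * q ^ s + C * q ^ (s - 1) := by
  have := finite_DR hT
  exact Pool.Agent.Helper80.RG.growth_upper' hT (finite_box hT)

theorem special_of_rank_zero {e : ℕ} {T : Fin (e + 1) → Module.End k H} (hT : LN T)
    [FiniteDimensional k (inv T)]
    (h0 : finrank (MvPowerSeries (Fin (e + 1)) k) (DR hT) = 0) {p : ℕ} (hp : 2 ≤ p) :
    ∃ (a : Fin e → ℕ) (W : Submodule k H), FiniteDimensional k W ∧
      ∀ u, (∀ i : Fin e, T i.castSucc u = (T (Fin.last e) ^ (p ^ a i)) u) → u ∈ W :=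
  Pool.Agent.Helper36.RG.special_of_rank_zero_aux hT (finite_DR hT) (finite_box hT) h0 hp

theorem coreg_snake {C H' : Type} [AddCommGroup C] [Module k C] [AddCommGroup H'] [Module k H']
    {TC : Fin s → Module.End k C} {T' : Fin s → Module.End k H'}
    (hTC : LN TC) (f : H →ₗ[k] C) (g : C →ₗ[k] H')
    (hf : Function.Injective f) (hg : Function.Surjective g)
    (hfg : LinearMap.range f = LinearMap.ker g)
    (ef : ∀ i h, f (T i h) = TC i (f h)) (eg : ∀ i h, g (TC i h) = T' i (g h))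
    {j : ℕ} (hH : Coreg T j) (hC : Coreg TC s) : Coreg T' (j + 1) :=
  Pool.Agent.Helper57.RG.coreg_snake hTC f g hf hg hfg ef eg hH hC

theorem NS_of_coreg (hT : LN T) (hC : Coreg T s) : NS T :=
  Pool.Agent.Helper27.RG.NS_of_coreg hT hC

end A

section G

variable {p s : ℕ} [Fact p.Prime] {G : Type} [Group G] (D : Dat p s G)
  {H : Type} [AddCommGroup H] [Module (ZMod p) H] {ρ : G →* Module.End (ZMod p) H}

theorem Sm.ln {D : Dat p s G} (hs : Sm D ρ) : LN (D.T ρ) :=
  Pool.Agent.Helper1.RG.Sm.ln hs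

theorem Sm.inv_eq {D : Dat p s G} (hs : Sm D ρ) : inv (D.T ρ) = fixed ρ D.V :=
  Pool.Agent.Helper1.RG.Sm.inv_eq hs

theorem Sm.box_eq {D : Dat p s G} (hs : Sm D ρ) (j : ℕ) :
    box (D.T ρ) (p ^ j) = fixed ρ (D.A j) :=
  Pool.Agent.Helper1.RG.Sm.box_eq hs j

theorem Sm.mon_eq {D : Dat p s G} (hs : Sm D ρ) {z : H} (hz : z ∈ box (D.T ρ) p) :
    mon (D.T ρ) (fun _ => p - 1) z =
      ∑ α : Fin s → Fin p, ρ ((List.ofFn fun i => ((D.t i : G)) ^ (α i : ℕ)).prod) z :=
  Pool.Agent.Helper1.RG.Sm.mon_eq hs hz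

theorem Cof.sm (n : ℕ) : Sm D (Cof.ρ D n) := Pool.Agent.Helper36.RG.Cof.sm D n

theorem Cof.finrank_fixed (n : ℕ) : FiniteDimensional (ZMod p) (fixed (Cof.ρ D n) D.V) ∧
    finrank (ZMod p) (fixed (Cof.ρ D n) D.V) = n * D.V.index :=
  Pool.Agent.Helper36.RG.Cof.finrank_fixed D n

theorem Cof.embed {D : Dat p s G} (hs : Sm D ρ) {n : ℕ} (x : Fin n → Module.Dual (ZMod p) H)
    (hx : ∀ h ∈ fixed ρ D.V, (∀ i, x i h = 0) → h = 0) :
    ∃ f : H →ₗ[ZMod p] Cof D n, Function.Injective f ∧ ∀ g h, f (ρ g h) = Cof.ρ D n g (f h) :=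
  Pool.Agent.Helper36.RG.Cof.embed hs x hx

theorem Cof.coreg (n : ℕ) : Coreg (D.T (Cof.ρ D n)) s := Pool.Agent.Helper57.RG.Cof.coreg D n

theorem index_dvd_of_NS (hch : HasChain D) (hs : Sm D ρ)
    [FiniteDimensional (ZMod p) (fixed ρ D.V)] (hNS : NS (D.T ρ)) :
    D.V.index ∣ finrank (ZMod p) (fixed ρ D.V) := by
  have h1 : FiniteDimensional (ZMod p) (inv (D.T ρ)) := by
    rw [hs.inv_eq]; infer_instance
  have h2 := hs.box_eq 1
  rw [pow_one] at h2
  exact Pool.Agent.Helper47.RG.index_dvd_core D hch hNS hs.inv_eq h2 (fun z hz => hs.mon_eq hz)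
    (finite_box hs.ln p)
    (fun ρ n U hn hU hle h0 => Pool.Agent.Helper20.RG.chain_finrank ρ n U hn hU hle h0)

end G

end Pool.Agent.Helper74.RG
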