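import Pool.Agent.Helper25.ETCRgK
import Pool.Agent.Helper74.RG.AA

/-!
# The arithmetic blocks, collected
-/

set_option autoImplicit false

namespace Pool.Agent.Helper74.RG

open Module Pool.Agent.Helper25.ETC

variable {F K : Type} [Field F] [Field K] [Algebra F K] {p : ℕ} [Fact p.Prime] {s : ℕ} {ζ : K}
  {E : IntermediateField F K} {φ : E.fixingSubgroup → (Fin s → ℤ_[p])}

theorem exists_KD (Cx : Ctx p F K ζ) (E : IntermediateField F K) [FiniteDimensional F E]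
    (z : ℕ → F) (hz : ∀ k, IsPrimitiveRoot (z k) (p ^ k)) (hz' : ∀ k, z (k + 1) ^ p = z k) {s : ℕ}
    (hcard : Nat.card (PC p E) = p ^ s) :
    ∃ φ : E.fixingSubgroup → (Fin s → ℤ_[p]), KD E φ :=
  Pool.Agent.Helper25.ETC.RG.exists_KD Cx E z hz hz' hcard

theorem KD.hasChain [IsGalois F K] (Cx : Ctx p F K ζ) {z : F} (hz : IsPrimitiveRoot z (p ^ 2))
    [FiniteDimensional F E] (X : KD E φ) (hgal : ∀ (σ : K ≃ₐ[F] K), ∀ x ∈ E, σ x ∈ E) :
    HasChain (X.dat hgal) :=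
  Pool.Agent.Helper25.ETC.RG.KD.hasChain Cx hz X hgal

theorem KD.box_le [IsGalois F K] (Cx : Ctx p F K ζ) (hζE : ζ ∈ E) [FiniteDimensional F E]
    (X : KD E φ) (hgal : ∀ (σ : K ≃ₐ[F] K), ∀ x ∈ E, σ x ∈ E) (k : ℕ) {m : ℕ}
    (hm : Nat.card (PC p (X.Z.L (Rl p s k))) = p ^ m) :
    FiniteDimensional (ZMod p) (box ((X.dat hgal).T (X.rep hgal)) (p ^ k)) ∧
    finrank (ZMod p) (box ((X.dat hgal).T (X.rep hgal)) (p ^ k)) ≤ m + s * s :=
  Pool.Agent.Helper25.ETC.RG.KD.box_le Cx hζE X hgal k hm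

theorem KD.le_box [IsGalois F K] (Cx : Ctx p F K ζ) (hζE : ζ ∈ E) [FiniteDimensional F E]
    (X : KD E φ) (hgal : ∀ (σ : K ≃ₐ[F] K), ∀ x ∈ E, σ x ∈ E) (k : ℕ) {m : ℕ}
    (hm : Nat.card (PC p (X.Z.L (Rl p s k))) = p ^ m)
    (hfin : FiniteDimensional (ZMod p) (box ((X.dat hgal).T (X.rep hgal)) (p ^ k))) :
    m ≤ finrank (ZMod p) (box ((X.dat hgal).T (X.rep hgal)) (p ^ k)) + s :=
  Pool.Agent.Helper25.ETC.RG.KD.le_box Cx hζE X hgal k hm hfin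

theorem card_schreier (Cx : Ctx p F K ζ) {E E' : IntermediateField F K} (hζE : ζ ∈ E)
    (hle : E ≤ E') [FiniteDimensional F E'] {n μ : ℕ} (hn : Nat.card (PC p E) = p ^ n)
    (hdeg : finrank F E' = finrank F E * μ) :
    ∃ m, Nat.card (PC p E') = p ^ m ∧ m ≤ 1 + μ * (n - 1) :=
  Pool.Agent.Helper25.ETC.RG.card_schreier Cx hζE hle hn hdeg

theorem card_mono (Cx : Ctx p F K ζ) {z : F} (hz : IsPrimitiveRoot z (p ^ 2))
    {E E' : IntermediateField F K} (hζE : ζ ∈ E)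
    (hle : E ≤ E') [FiniteDimensional F E'] {n m : ℕ} (hn : Nat.card (PC p E) = p ^ n)
    (hm : Nat.card (PC p E') = p ^ m) : n ≤ m :=
  Pool.Agent.Helper25.ETC.RG.card_mono Cx hz hζE hle hn hm

end Pool.Agent.Helper74.RG
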