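import Mathlib

/-!
# Commuting locally nilpotent operators and the power series action on the dual
-/

set_option autoImplicit false

namespace Pool.Agent.Helper74.RG

open Module

/-- power series in `s` variables. -/
abbrev PS (s : ℕ) (k : Type) [Field k] : Type := MvPowerSeries (Fin s) k

instance instIsDomainPS (s : ℕ) (k : Type) [Field k] : IsDomain (MvPowerSeries (Fin s) k) :=
  NoZeroDivisors.to_isDomain _

/-- commuting locally nilpotent operators. -/
structure LN {s : ℕ} {k H : Type} [Field k] [AddCommGroup H] [Module k H]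
    (T : Fin s → Module.End k H) : Prop where
  comm : ∀ i j h, T i (T j h) = T j (T i h)
  nil : ∀ i h, ∃ n : ℕ, (T i ^ n) h = 0

section

variable {s : ℕ} {k : Type} [Field k] {H : Type} [AddCommGroup H] [Module k H]

/-- the monomial operator `∏ T i ^ α i`. -/
noncomputable def mon (T : Fin s → Module.End k H) (α : Fin s → ℕ) : Module.End k H :=
  (List.ofFn fun i => T i ^ α i).prod

/-- the action of a power series (for `LN T`, the sum is finite). -/
noncomputable def act (T : Fin s → Module.End k H) (f : MvPowerSeries (Fin s) k) (h : H) : H :=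
  ∑ᶠ α : Fin s →₀ ℕ, MvPowerSeries.coeff α f • mon T α h

/-- the common kernel. -/
noncomputable def inv (T : Fin s → Module.End k H) : Submodule k H := ⨅ i, LinearMap.ker (T i)

/-- the common kernel of the `q`-th powers. -/
noncomputable def box (T : Fin s → Module.End k H) (q : ℕ) : Submodule k H :=
  ⨅ i, LinearMap.ker (T i ^ q)

theorem mem_inv {T : Fin s → Module.End k H} {h : H} : h ∈ inv T ↔ ∀ i, T i h = 0 := by
  simp [inv]

theorem mem_box {T : Fin s → Module.End k H} {q : ℕ} {h : H} :
    h ∈ box T q ↔ ∀ i, (T i ^ q) h = 0 := by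
  simp [box]

theorem pow_zero_of_le {D : Module.End k H} {m n : ℕ} {h : H} (hmn : m ≤ n)
    (h0 : (D ^ m) h = 0) : (D ^ n) h = 0 := by
  obtain ⟨c, rfl⟩ := Nat.exists_eq_add_of_le' hmn
  rw [pow_add, Module.End.mul_apply, h0, map_zero]

variable {T : Fin s → Module.End k H}

theorem LN.commute (hT : LN T) (i j : Fin s) : Commute (T i) (T j) :=
  LinearMap.ext (hT.comm i j)

theorem LN.commute_mon (hT : LN T) (i : Fin s) (α : Fin s → ℕ) : Commute (T i) (mon T α) := by
  unfold mon
  apply Commute.list_prod_right
  intro x hx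
  rw [List.mem_ofFn] at hx
  obtain ⟨j, rfl⟩ := hx
  exact (hT.commute i j).pow_right _

theorem mon_zero : mon T 0 = 1 := by
  unfold mon
  apply List.prod_eq_one
  intro x hx
  rw [List.mem_ofFn] at hx
  obtain ⟨j, rfl⟩ := hx
  exact pow_zero _

theorem list_ofFn_mul {M : Type} [Monoid M] : ∀ (n : ℕ) (u v : Fin n → M),
    (∀ i j, Commute (u i) (v j)) →
    (List.ofFn fun i => u i * v i).prod = (List.ofFn u).prod * (List.ofFn v).prod := by
  intro n
  induction n with
  | zero => intro u v _; simp
  | succ n ih =>
    intro u v h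
    rw [List.ofFn_succ, List.prod_cons, List.ofFn_succ, List.prod_cons, List.ofFn_succ,
      List.prod_cons, ih _ _ (fun i j => h i.succ j.succ)]
    have h1 : Commute (v 0) (List.ofFn fun i => u (Fin.succ i)).prod := by
      apply Commute.list_prod_right
      intro x hx
      rw [List.mem_ofFn] at hx
      obtain ⟨j, rfl⟩ := hx
      exact (h j.succ 0).symm
    simp only [mul_assoc]
    congr 1
    rw [← mul_assoc, h1.eq, mul_assoc]

theorem LN.mon_add (hT : LN T) (α β : Fin s → ℕ) : mon T (α + β) = mon T α * mon T β := by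
  unfold mon
  rw [← list_ofFn_mul]
  · simp only [Pi.add_apply, pow_add]
  · intro i j
    exact ((hT.commute i j).pow_left _).pow_right _

theorem mon_single (i : Fin s) (n : ℕ) : mon T (Pi.single i n) = T i ^ n := by
  unfold mon
  have key : ∀ (m : ℕ) (u : Fin m → Module.End k H) (i : Fin m),
      (List.ofFn fun j => u j ^ ((Pi.single i n : Fin m → ℕ) j)).prod = u i ^ n := by
    intro m
    induction m with
    | zero => intro u i; exact i.elim0
    | succ m ih =>
      intro u i
      rw [List.ofFn_succ, List.prod_cons]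
      rcases Fin.eq_zero_or_eq_succ i with rfl | ⟨j, rfl⟩
      · rw [Pi.single_eq_same]
        have : (List.ofFn fun j : Fin m => u j.succ ^ ((Pi.single 0 n : Fin (m + 1) → ℕ) j.succ)).prod
            = 1 := by
          apply List.prod_eq_one
          intro x hx
          rw [List.mem_ofFn] at hx
          obtain ⟨j, rfl⟩ := hx
          rw [Pi.single_eq_of_ne (Fin.succ_ne_zero j), pow_zero]
        rw [this, mul_one]
      · rw [Pi.single_eq_of_ne (Fin.succ_ne_zero j).symm, pow_zero, one_mul]
        have h1 : ∀ l : Fin m, (Pi.single j.succ n : Fin (m + 1) → ℕ) l.succ =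
            (Pi.single j n : Fin m → ℕ) l := by
          intro l
          rcases eq_or_ne l j with rfl | hl
          · rw [Pi.single_eq_same, Pi.single_eq_same]
          · rw [Pi.single_eq_of_ne hl, Pi.single_eq_of_ne (by
              intro h; exact hl (Fin.succ_injective _ h))]
        simp only [h1]
        exact ih (fun l => u l.succ) j
  exact key s T i

/-- a monomial containing a killing power kills. -/
theorem LN.mon_eq_zero (hT : LN T) {α : Fin s → ℕ} {i : Fin s} {n : ℕ} {h : H}
    (h0 : (T i ^ n) h = 0) (hn : n ≤ α i) : mon T α h = 0 := by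
  have h1 : α = (α - Pi.single i n) + Pi.single i n := by
    funext j
    rcases eq_or_ne j i with rfl | hj
    · simp only [Pi.add_apply, Pi.sub_apply, Pi.single_eq_same]; omega
    · simp [Pi.single_eq_of_ne hj]
  rw [h1, hT.mon_add, Module.End.mul_apply, mon_single, h0, map_zero]

/-- a uniform bound. -/
theorem LN.exists_box (hT : LN T) (h : H) : ∃ q : ℕ, h ∈ box T q := by
  choose n hn using fun i => hT.nil i h
  refine ⟨∑ i, n i, mem_box.mpr (fun i => pow_zero_of_le ?_ (hn i))⟩
  exact Finset.single_le_sum (fun j _ => Nat.zero_le (n j)) (Finset.mem_univ i)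

theorem LN.supp (hT : LN T) {q : ℕ} {h : H} (hq : h ∈ box T q) {α : Fin s →₀ ℕ}
    (hα : mon T α h ≠ 0) : ∀ i, α i < q := by
  intro i
  by_contra hcon
  exact hα (hT.mon_eq_zero (mem_box.mp hq i) (not_lt.mp hcon))

theorem finite_lt (q : ℕ) : {α : Fin s →₀ ℕ | ∀ i, α i < q}.Finite := by
  have : {α : Fin s →₀ ℕ | ∀ i, α i < q} ⊆ Set.Iic (Finsupp.equivFunOnFinite.symm fun _ => q) := by
    intro α hα
    rw [Set.mem_Iic]
    intro i
    exact (hα i).le
  exact (Set.finite_Iic _).subset this

theorem LN.finite_supp (hT : LN T) (h : H) : {α : Fin s →₀ ℕ | mon T α h ≠ 0}.Finite := by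
  obtain ⟨q, hq⟩ := hT.exists_box h
  exact (finite_lt q).subset (fun α hα => hT.supp hq hα)

theorem LN.finite_supp' (hT : LN T) (f : MvPowerSeries (Fin s) k) (h : H) :
    (Function.support fun α : Fin s →₀ ℕ => MvPowerSeries.coeff α f • mon T α h).Finite := by
  refine (hT.finite_supp h).subset ?_
  intro α hα
  rw [Function.mem_support] at hα
  intro h1
  exact hα (by rw [h1, smul_zero])

/-- the action as a finite sum over any finset containing the support. -/
theorem LN.act_eq_sum (_hT : LN T) (f : MvPowerSeries (Fin s) k) {h : H}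
    {S : Finset (Fin s →₀ ℕ)} (hS : ∀ α : Fin s →₀ ℕ, mon T α h ≠ 0 → α ∈ S) :
    act T f h = ∑ α ∈ S, MvPowerSeries.coeff α f • mon T α h := by
  unfold act
  apply finsum_eq_sum_of_support_subset
  intro α hα
  rw [Function.mem_support] at hα
  apply hS
  intro h1
  exact hα (by rw [h1, smul_zero])

theorem LN.act_add_right (hT : LN T) (f : MvPowerSeries (Fin s) k) (h h' : H) :
    act T f (h + h') = act T f h + act T f h' := by
  unfold act
  rw [← finsum_add_distrib (hT.finite_supp' f h) (hT.finite_supp' f h')]
  simp only [map_add, smul_add]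

theorem LN.act_smul_right (_hT : LN T) (f : MvPowerSeries (Fin s) k) (c : k) (h : H) :
    act T f (c • h) = c • act T f h := by
  unfold act
  rw [smul_finsum]
  simp only [map_smul]
  apply finsum_congr
  intro α
  rw [smul_comm]

theorem LN.act_add_left (hT : LN T) (f g : MvPowerSeries (Fin s) k) (h : H) :
    act T (f + g) h = act T f h + act T g h := by
  unfold act
  rw [← finsum_add_distrib (hT.finite_supp' f h) (hT.finite_supp' g h)]
  simp only [map_add, add_smul]

theorem LN.act_monomial (_hT : LN T) (α : Fin s →₀ ℕ) (c : k) (h : H) :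
    act T (MvPowerSeries.monomial α c) h = c • mon T α h := by
  classical
  unfold act
  rw [finsum_eq_single _ α]
  · rw [MvPowerSeries.coeff_monomial_same]
  · intro β hβ
    rw [MvPowerSeries.coeff_monomial_ne hβ, zero_smul]

theorem LN.act_C (hT : LN T) (c : k) (h : H) : act T (MvPowerSeries.C c) h = c • h := by
  have : (MvPowerSeries.C c : MvPowerSeries (Fin s) k) = MvPowerSeries.monomial 0 c := rfl
  rw [this, hT.act_monomial]
  have h2 : mon T ((0 : Fin s →₀ ℕ) : Fin s → ℕ) = 1 := by
    rw [Finsupp.coe_zero, mon_zero]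
  rw [h2, Module.End.one_apply]

theorem LN.act_one (hT : LN T) (h : H) : act T 1 h = h := by
  have h1 := hT.act_C 1 h
  rwa [map_one, one_smul] at h1

theorem LN.act_zero_left (_hT : LN T) (h : H) : act T 0 h = 0 := by
  unfold act
  simp

theorem LN.act_X (hT : LN T) (i : Fin s) (h : H) : act T (MvPowerSeries.X i) h = T i h := by
  have : (MvPowerSeries.X i : MvPowerSeries (Fin s) k) =
    MvPowerSeries.monomial (Finsupp.single i 1) 1 := rfl
  rw [this, hT.act_monomial, one_smul]
  have h2 : ((Finsupp.single i 1 : Fin s →₀ ℕ) : Fin s → ℕ) = Pi.single i 1 := by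
    funext j
    rw [Finsupp.single_apply, Pi.single_apply]
    simp only [eq_comm]
  rw [h2, mon_single, pow_one]

theorem LN.mon_mem_box (hT : LN T) {q : ℕ} {h : H} (hq : h ∈ box T q) (α : Fin s → ℕ) :
    mon T α h ∈ box T q := by
  rw [mem_box] at hq ⊢
  intro i
  have h1 := ((hT.commute_mon i α).pow_left q).eq
  rw [← Module.End.mul_apply, h1, Module.End.mul_apply, hq i, map_zero]

theorem LN.act_mul (hT : LN T) (f g : MvPowerSeries (Fin s) k) (h : H) :
    act T (f * g) h = act T f (act T g h) := by
  classical
  obtain ⟨q, hq⟩ := hT.exists_box h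
  set S : Finset (Fin s →₀ ℕ) := (finite_lt (s := s) q).toFinset with hS
  have hmem : ∀ h' ∈ box T q, ∀ α : Fin s →₀ ℕ, mon T α h' ≠ 0 → α ∈ S := by
    intro h' hh' α hα
    rw [hS, Set.Finite.mem_toFinset]
    exact hT.supp hh' hα
  have hgh : act T g h ∈ box T q := by
    rw [hT.act_eq_sum g (hmem h hq)]
    exact Submodule.sum_mem _ (fun α _ => Submodule.smul_mem _ _ (hT.mon_mem_box hq α))
  rw [hT.act_eq_sum (f * g) (hmem h hq), hT.act_eq_sum f (hmem _ hgh)]
  simp only [hT.act_eq_sum g (hmem h hq), map_sum, map_smul, Finset.smul_sum]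
  have hmm : ∀ α β : Fin s →₀ ℕ, mon T α (mon T β h) = mon T (⇑(α + β)) h := by
    intro α β
    rw [Finsupp.coe_add, hT.mon_add, Module.End.mul_apply]
  simp only [hmm]
  -- left side
  have hL : ∀ γ ∈ S, MvPowerSeries.coeff γ (f * g) • mon T γ h =
      ∑ α ∈ S, ∑ β ∈ S, if α + β = γ then
        (MvPowerSeries.coeff α f * MvPowerSeries.coeff β g) • mon T γ h else 0 := by
    intro γ hγ
    rw [MvPowerSeries.coeff_mul, Finset.sum_smul, ← Finset.sum_product']
    rw [← Finset.sum_filter]
    apply Finset.sum_congr
    · ext ⟨α, β⟩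
      rw [Finset.HasAntidiagonal.mem_antidiagonal, Finset.mem_filter, Finset.mem_product]
      constructor
      · intro h1
        rw [hS, Set.Finite.mem_toFinset] at hγ
        refine ⟨⟨?_, ?_⟩, h1⟩
        · rw [hS, Set.Finite.mem_toFinset]
          intro i
          have := hγ i
          simp only at h1
          rw [← h1, Finsupp.add_apply] at this
          simp only
          omega
        · rw [hS, Set.Finite.mem_toFinset]
          intro i
          have := hγ i
          simp only at h1
          rw [← h1, Finsupp.add_apply] at this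
          simp only
          omega
      · exact fun h1 => h1.2
    · intro x _
      rfl
  rw [Finset.sum_congr rfl hL, Finset.sum_comm]
  apply Finset.sum_congr rfl
  intro α _
  rw [Finset.sum_comm]
  apply Finset.sum_congr rfl
  intro β _
  by_cases hαβ : α + β ∈ S
  · rw [Finset.sum_eq_single (α + β)]
    · rw [if_pos rfl, mul_smul]
    · intro γ _ hγ
      rw [if_neg (Ne.symm hγ)]
    · intro h1; exact absurd hαβ h1
  · have h0 : mon T (⇑(α + β)) h = 0 := by
      by_contra h1
      exact hαβ (hmem h hq _ h1)
    rw [h0, smul_zero, smul_zero]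
    apply Finset.sum_eq_zero
    intro γ hγ
    rw [if_neg]
    rintro rfl
    exact hαβ hγ

/-- the action as a ring homomorphism. -/
noncomputable def LN.actHom (hT : LN T) : MvPowerSeries (Fin s) k →+* Module.End k H where
  toFun f :=
    { toFun := act T f
      map_add' := hT.act_add_right f
      map_smul' := fun c h => hT.act_smul_right f c h }
  map_one' := LinearMap.ext hT.act_one
  map_mul' f g := LinearMap.ext (hT.act_mul f g)
  map_zero' := LinearMap.ext hT.act_zero_left
  map_add' f g := LinearMap.ext (hT.act_add_left f g)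

theorem LN.actHom_apply (hT : LN T) (f : MvPowerSeries (Fin s) k) (h : H) :
    hT.actHom f h = act T f h := rfl

/-- functoriality. -/
theorem act_map {H' : Type} [AddCommGroup H'] [Module k H'] {T' : Fin s → Module.End k H'}
    (hT : LN T) (hT' : LN T') (u : H →ₗ[k] H') (hu : ∀ i h, u (T i h) = T' i (u h))
    (f : MvPowerSeries (Fin s) k) (h : H) : u (act T f h) = act T' f (u h) := by
  classical
  have hpow : ∀ i (n : ℕ) h, u ((T i ^ n) h) = (T' i ^ n) (u h) := by
    intro i n
    induction n with
    | zero => intro h; rfl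
    | succ n ih =>
      intro h
      rw [pow_succ, pow_succ, Module.End.mul_apply, Module.End.mul_apply, ih, hu]
  have hlist : ∀ (m : ℕ) (a : Fin m → Module.End k H) (b : Fin m → Module.End k H'),
      (∀ i h, u (a i h) = b i (u h)) → ∀ h, u ((List.ofFn a).prod h) = (List.ofFn b).prod (u h) := by
    intro m
    induction m with
    | zero => intro a b _ h; simp
    | succ m ih =>
      intro a b hab h
      rw [List.ofFn_succ, List.ofFn_succ, List.prod_cons, List.prod_cons, Module.End.mul_apply,
        Module.End.mul_apply, hab, ih _ _ (fun i => hab i.succ)]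
  have hmon : ∀ (α : Fin s → ℕ) h, u (mon T α h) = mon T' α (u h) := by
    intro α h
    exact hlist s _ _ (fun i h => hpow i (α i) h) h
  obtain ⟨q, hq⟩ := hT.exists_box h
  obtain ⟨q', hq'⟩ := hT'.exists_box (u h)
  rw [hT.act_eq_sum (S := (finite_lt (s := s) q).toFinset ∪ (finite_lt (s := s) q').toFinset) f
      (fun α hα => by
        rw [Finset.mem_union, Set.Finite.mem_toFinset]; exact Or.inl (hT.supp hq hα)),
    hT'.act_eq_sum (S := (finite_lt (s := s) q).toFinset ∪ (finite_lt (s := s) q').toFinset) f
      (fun α hα => by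
        rw [Finset.mem_union, Set.Finite.mem_toFinset, Set.Finite.mem_toFinset]
        exact Or.inr (hT'.supp hq' hα)), map_sum]
  apply Finset.sum_congr rfl
  intro α _
  rw [map_smul, hmon]

/-- the dual of `H`, as a module over power series. -/
def DR (_ : LN T) : Type := Module.Dual k H

noncomputable instance (hT : LN T) : AddCommGroup (DR hT) :=
  inferInstanceAs (AddCommGroup (Module.Dual k H))

noncomputable instance (hT : LN T) : Module k (DR hT) :=
  inferInstanceAs (Module k (Module.Dual k H))

/-- evaluation -/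
def DR.toDual {hT : LN T} (x : DR hT) : Module.Dual k H := x

/-- the functional as an element of the dual module -/
def DR.of (hT : LN T) (x : Module.Dual k H) : DR hT := x

noncomputable instance (hT : LN T) : Module (MvPowerSeries (Fin s) k) (DR hT) where
  smul f x := (DR.toDual x).comp (hT.actHom f)
  one_smul x := by
    change (DR.toDual x).comp (hT.actHom 1) = x
    rw [map_one]; rfl
  mul_smul f g x := by
    change (DR.toDual x).comp (hT.actHom (f * g)) =
      ((DR.toDual x).comp (hT.actHom g)).comp (hT.actHom f)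
    rw [mul_comm, map_mul]; rfl
  smul_zero f := by
    change (0 : Module.Dual k H).comp (hT.actHom f) = 0
    exact LinearMap.zero_comp _
  smul_add f x y := by
    change (DR.toDual x + DR.toDual y).comp (hT.actHom f) =
      (DR.toDual x).comp (hT.actHom f) + (DR.toDual y).comp (hT.actHom f)
    exact LinearMap.add_comp _ _ _
  add_smul f g x := by
    change (DR.toDual x).comp (hT.actHom (f + g)) =
      (DR.toDual x).comp (hT.actHom f) + (DR.toDual x).comp (hT.actHom g)
    rw [map_add]; exact LinearMap.comp_add _ _ _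
  zero_smul x := by
    change (DR.toDual x).comp (hT.actHom 0) = 0
    rw [map_zero]; exact LinearMap.comp_zero _

theorem DR.smul_apply {hT : LN T} (f : MvPowerSeries (Fin s) k) (x : DR hT) (h : H) :
    (f • x).toDual h = x.toDual (act T f h) := rfl

theorem DR.add_apply {hT : LN T} (x y : DR hT) (h : H) :
    (x + y).toDual h = x.toDual h + y.toDual h := rfl

theorem DR.zero_apply {hT : LN T} (h : H) : (0 : DR hT).toDual h = 0 := rfl

theorem DR.sum_apply {hT : LN T} {ι : Type*} (S : Finset ι) (x : ι → DR hT) (h : H) :
    (∑ i ∈ S, x i).toDual h = ∑ i ∈ S, (x i).toDual h := by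
  classical
  induction S using Finset.induction_on with
  | empty => rfl
  | insert a S ha ih => rw [Finset.sum_insert ha, Finset.sum_insert ha, DR.add_apply, ih]

theorem DR.ext {hT : LN T} {x y : DR hT} (h : ∀ v, x.toDual v = y.toDual v) : x = y :=
  LinearMap.ext (f := x.toDual) (g := y.toDual) h

theorem DR.C_smul {hT : LN T} (c : k) (x : DR hT) :
    (MvPowerSeries.C c : MvPowerSeries (Fin s) k) • x = c • x := by
  apply DR.ext
  intro v
  rw [DR.smul_apply, hT.act_C, map_smul]
  rfl

/-- the dual of an equivariant map is linear over power series. -/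
noncomputable def DR.map {H' : Type} [AddCommGroup H'] [Module k H']
    {T' : Fin s → Module.End k H'} (hT : LN T) (hT' : LN T') (u : H →ₗ[k] H')
    (hu : ∀ i h, u (T i h) = T' i (u h)) : DR hT' →ₗ[MvPowerSeries (Fin s) k] DR hT where
  toFun x := (x.toDual).comp u
  map_add' x y := rfl
  map_smul' f x := by
    apply DR.ext
    intro v
    change x.toDual (act T' f (u v)) = x.toDual (u (act T f v))
    rw [act_map hT hT' u hu]

theorem DR.map_apply {H' : Type} [AddCommGroup H'] [Module k H']
    {T' : Fin s → Module.End k H'} (hT : LN T) (hT' : LN T') (u : H →ₗ[k] H')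
    (hu : ∀ i h, u (T i h) = T' i (u h)) (x : DR hT') (h : H) :
    (DR.map hT hT' u hu x).toDual h = x.toDual (u h) := rfl

/-- `T 0` onto, `T 1` onto on the kernel of `T 0`, and so on, for the first `j` operators. -/
def Coreg (T : Fin s → Module.End k H) (j : ℕ) : Prop :=
  ∀ i : Fin s, (i : ℕ) < j → ∀ h, (∀ l, l < i → T l h = 0) →
    ∃ h', (∀ l, l < i → T l h' = 0) ∧ T i h' = h

/-- norm surjectivity. -/
def NS (T : Fin s → Module.End k H) : Prop :=
  ∀ q : ℕ, ∀ y ∈ inv T, ∃ z ∈ box T (q + 1), mon T (fun _ => q) z = y

end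

end Pool.Agent.Helper74.RG
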