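import Pool.Agent.Helper74.RG.BlocksK

/-!
# Integrality of the rank gradient
-/

set_option autoImplicit false

namespace Pool.Agent.Helper74.RG

open Module Pool.Agent.Helper25.ETC

variable {F K : Type} [Field F] [Field K] [Algebra F K] {p : ℕ} [Fact p.Prime] {s : ℕ} {ζ : K}
  {E : IntermediateField F K} {φ : E.fixingSubgroup → (Fin s → ℤ_[p])}

theorem exists_gal [IsGalois F K] (E' : IntermediateField F K) [FiniteDimensional F E'] :
    ∃ E : IntermediateField F K, E' ≤ E ∧ FiniteDimensional F E ∧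
      ∀ (σ : K ≃ₐ[F] K), ∀ x ∈ E, σ x ∈ E := by
  refine ⟨IntermediateField.normalClosure F E' K, E'.le_normalClosure, inferInstance, ?_⟩
  intro σ x hx
  have hn : Normal F (IntermediateField.normalClosure F E' K) := inferInstance
  rw [IntermediateField.normal_iff_forall_map_le'] at hn
  exact hn σ ⟨x, hx, rfl⟩

theorem inv_eq_box (T : Fin s → Module.End (ZMod p) (VV p E)) : inv T = box T 1 := by
  simp [inv, box]

section

variable [IsGalois F K] [FiniteDimensional F E]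

theorem KD.fin_inv (Cx : Ctx p F K ζ) (hζE : ζ ∈ E) (X : KD E φ)
    (hgal : ∀ (σ : K ≃ₐ[F] K), ∀ x ∈ E, σ x ∈ E) (hs : Nat.card (PC p E) = p ^ s) :
    FiniteDimensional (ZMod p) (inv ((X.dat hgal).T (X.rep hgal))) := by
  have hRo := Rl_open (p := p) (d := s) 0
  have hLfin := X.Z.L_fin hRo
  have hle : E ≤ X.Z.L (Rl p s 0) := X.Z.E_le_L _
  have hfr := X.Z.L_finrank hRo
  obtain ⟨m, hm, -⟩ := card_schreier Cx hζE hle hs (μ := (Rl p s 0).index)
    (by rw [hfr, mul_comm])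
  have h1 := (X.box_le Cx hζE hgal 0 hm).1
  rw [inv_eq_box, ← pow_zero p]
  exact h1

/-- the rank is at most `d(E) - 1`. -/
theorem KD.rank_le (Cx : Ctx p F K ζ) (hζE : ζ ∈ E) (X : KD E φ)
    (hgal : ∀ (σ : K ≃ₐ[F] K), ∀ x ∈ E, σ x ∈ E) (hs : Nat.card (PC p E) = p ^ s) (h1 : 1 ≤ s) :
    finrank (MvPowerSeries (Fin s) (ZMod p)) (DR (X.sm hgal).ln) + 1 ≤ s := by
  have hp := Cx.hp
  have := X.fin_inv Cx hζE hgal hs
  obtain ⟨C, hC⟩ := growth_lower (X.sm hgal).ln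
  set ρ := finrank (MvPowerSeries (Fin s) (ZMod p)) (DR (X.sm hgal).ln) with hρ
  by_contra hcon
  set k := 1 + s * s + C with hk
  have hRo := Rl_open (p := p) (d := s) k
  have hLfin := X.Z.L_fin hRo
  have hle : E ≤ X.Z.L (Rl p s k) := X.Z.E_le_L _
  have hfr := X.Z.L_finrank hRo
  rw [Rl_index] at hfr
  obtain ⟨m, hm, hm2⟩ := card_schreier Cx hζE hle hs (μ := p ^ (k * s))
    (by rw [hfr, mul_comm])
  obtain ⟨hb1, hb2⟩ := X.box_le Cx hζE hgal k hm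
  have h2 := hC (p ^ k)
  obtain ⟨e, rfl⟩ : ∃ e, s = e + 1 := ⟨s - 1, by omega⟩
  rw [Nat.add_sub_cancel] at h2 hm2
  have h3 : (p ^ k) ^ (e + 1) = p ^ (k * (e + 1)) := by rw [← pow_mul]
  have h4 : p ^ (k * (e + 1)) = (p ^ k) ^ e * p ^ k := by rw [← h3, pow_succ]
  have h5 : k < p ^ k := Nat.lt_pow_self hp.one_lt
  have h6 : 1 ≤ (p ^ k) ^ e := Nat.one_le_pow _ _ (pow_pos hp.pos _)
  rw [h3] at h2
  have h7 : (e + 1) * p ^ (k * (e + 1)) ≤ ρ * p ^ (k * (e + 1)) :=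
    Nat.mul_le_mul_right _ (by omega)
  have h8 : (e + 1) * p ^ (k * (e + 1)) ≤ 1 + p ^ (k * (e + 1)) * e + (e + 1) * (e + 1) +
      C * (p ^ k) ^ e := by
    refine (h7.trans h2).trans ?_
    refine Nat.add_le_add_right (hb2.trans (Nat.add_le_add_right hm2 _)) _
  have h9 : (e + 1) * p ^ (k * (e + 1)) = p ^ (k * (e + 1)) * e + p ^ (k * (e + 1)) := by ring
  have h10 : p ^ (k * (e + 1)) ≤ 1 + (e + 1) * (e + 1) + C * (p ^ k) ^ e := by omega
  have h11 : 1 + (e + 1) * (e + 1) + C * (p ^ k) ^ e ≤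
      (1 + (e + 1) * (e + 1)) * (p ^ k) ^ e + C * (p ^ k) ^ e :=
    Nat.add_le_add_right (Nat.le_mul_of_pos_right _ h6) _
  have h12 : (p ^ k) ^ e * p ^ k ≤ (p ^ k) ^ e * k := by
    calc (p ^ k) ^ e * p ^ k = p ^ (k * (e + 1)) := h4.symm
      _ ≤ _ := h10.trans h11
      _ = (p ^ k) ^ e * k := by rw [hk]; ring
  exact absurd (Nat.le_of_mul_le_mul_left h12 h6) (not_le.mpr h5)

theorem KD.dvd (Cx : Ctx p F K ζ) {z : F} (hz : IsPrimitiveRoot z (p ^ 2)) (hζE : ζ ∈ E)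
    (X : KD E φ) (hgal : ∀ (σ : K ≃ₐ[F] K), ∀ x ∈ E, σ x ∈ E) (hs : Nat.card (PC p E) = p ^ s) :
    finrank F E ∣ finrank (MvPowerSeries (Fin s) (ZMod p)) (DR (X.sm hgal).ln) := by
  have h1 := dvd_rank (X.dat hgal) (X.hasChain Cx hz hgal) (X.sm hgal) (X.fin_inv Cx hζE hgal hs)
  have h2 : (X.dat hgal).V.index = finrank F E := by
    rw [IntermediateField.finrank_eq_fixingSubgroup_index]
    rfl
  rwa [h2] at h1

/-- the rank is approached. -/
theorem KD.approx (Cx : Ctx p F K ζ) (hζE : ζ ∈ E) (X : KD E φ)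
    (hgal : ∀ (σ : K ≃ₐ[F] K), ∀ x ∈ E, σ x ∈ E) (hs : Nat.card (PC p E) = p ^ s) (h1 : 1 ≤ s)
    {r : ℕ} (hr : finrank (MvPowerSeries (Fin s) (ZMod p)) (DR (X.sm hgal).ln) = r * finrank F E)
    {ε : ℝ} (hε : 0 < ε) :
    ∃ L : IntermediateField F K, FiniteDimensional F L ∧ ∃ m : ℕ, Nat.card (PC p L) = p ^ m ∧
      (m : ℝ) - 1 ≤ (r + ε) * finrank F L := by
  have hp := Cx.hp
  have := X.fin_inv Cx hζE hgal hs
  obtain ⟨C, hC⟩ := growth_upper (X.sm hgal).ln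
  rw [hr] at hC
  obtain ⟨k, hk⟩ := pow_unbounded_of_one_lt (((C + s : ℕ) : ℝ) / ε)
    (show (1 : ℝ) < (p : ℝ) by exact_mod_cast hp.one_lt)
  rw [div_lt_iff₀ hε] at hk
  have hRo := Rl_open (p := p) (d := s) k
  have hLfin := X.Z.L_fin hRo
  have hle : E ≤ X.Z.L (Rl p s k) := X.Z.E_le_L _
  have hfr := X.Z.L_finrank hRo
  rw [Rl_index] at hfr
  obtain ⟨m, hm, hm2⟩ := card_schreier Cx hζE hle hs (μ := p ^ (k * s))
    (by rw [hfr, mul_comm])
  obtain ⟨hb1, hb2⟩ := X.box_le Cx hζE hgal k hm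
  have h3 := X.le_box Cx hζE hgal k hm hb1
  have h4 := hC (p ^ k)
  refine ⟨X.Z.L (Rl p s k), hLfin, m, hm, ?_⟩
  have h5 : m ≤ r * finrank F E * (p ^ k) ^ s + C * (p ^ k) ^ (s - 1) + s :=
    h3.trans (Nat.add_le_add_right h4 _)
  have h6 : 1 ≤ (p ^ k) ^ (s - 1) := Nat.one_le_pow _ _ (pow_pos hp.pos _)
  have h7 : m ≤ r * finrank F E * (p ^ k) ^ s + (C + s) * (p ^ k) ^ (s - 1) := by
    refine h5.trans ?_
    rw [add_mul, ← add_assoc]
    exact Nat.add_le_add_left (Nat.le_mul_of_pos_right _ h6) _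
  have h8 : (m : ℝ) ≤ r * finrank F E * (p ^ k) ^ s + ((C + s : ℕ) : ℝ) * (p ^ k) ^ (s - 1) := by
    exact_mod_cast h7
  have h9 : (finrank F (X.Z.L (Rl p s k)) : ℝ) = (p ^ k) ^ s * finrank F E := by
    rw [hfr, pow_mul]
    push_cast
    ring
  have hE1 : (1 : ℝ) ≤ finrank F E := by
    have : 0 < finrank F E := finrank_pos
    exact_mod_cast this
  have hpow : ((p : ℝ) ^ k) ^ s = (p ^ k) ^ (s - 1) * p ^ k := by
    rw [← pow_succ, Nat.sub_add_cancel h1]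
  have hq0 : (0 : ℝ) < ((p : ℝ) ^ k) ^ (s - 1) := by
    have : (0 : ℝ) < p := by exact_mod_cast hp.pos
    positivity
  have hps : (0 : ℝ) < ((p : ℝ) ^ k) ^ s := by
    have : (0 : ℝ) < p := by exact_mod_cast hp.pos
    positivity
  have h10 : ((C + s : ℕ) : ℝ) * (p ^ k) ^ (s - 1) ≤ ε * ((p : ℝ) ^ k) ^ s := by
    rw [hpow]
    have := mul_le_mul_of_nonneg_right hk.le hq0.le
    calc ((C + s : ℕ) : ℝ) * (p ^ k) ^ (s - 1) ≤ (p : ℝ) ^ k * ε * (p ^ k) ^ (s - 1) := this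
      _ = _ := by ring
  have h11 : ε * ((p : ℝ) ^ k) ^ s ≤ ε * (((p : ℝ) ^ k) ^ s * finrank F E) := by
    apply mul_le_mul_of_nonneg_left _ hε.le
    exact le_mul_of_one_le_right hps.le hE1
  rw [h9]
  calc (m : ℝ) - 1 ≤ m := by linarith
    _ ≤ r * finrank F E * (p ^ k) ^ s + ((C + s : ℕ) : ℝ) * (p ^ k) ^ (s - 1) := h8
    _ ≤ r * finrank F E * (p ^ k) ^ s + ε * (((p : ℝ) ^ k) ^ s * finrank F E) := by linarith
    _ = _ := by ring

/-- rank zero gives a valuation. -/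
theorem KD.concl {e : ℕ} {φ : E.fixingSubgroup → (Fin (e + 1) → ℤ_[p])} (Cx : Ctx p F K ζ)
    (hζE : ζ ∈ E) (hneg : (-1 : K) ∈ TT p E) (X : KD E φ)
    (hgal : ∀ (σ : K ≃ₐ[F] K), ∀ x ∈ E, σ x ∈ E) (hs : Nat.card (PC p E) = p ^ (e + 1))
    (he : 1 ≤ e)
    (hr : finrank (MvPowerSeries (Fin (e + 1)) (ZMod p)) (DR (X.sm hgal).ln) = 0) :
    Concl F K := by
  have hp := Cx.hp
  have := X.fin_inv Cx hζE hgal hs
  obtain ⟨a, W, hW, hWmem⟩ := special_of_rank_zero (X.sm hgal).ln hr hp.two_le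
  refine concl_of_special Cx hζE hneg X.Z (Or.inl he) (t := (X.dat hgal).t) (X.dat hgal).ht
    (fun σ => X.stabM hgal σ) a W hW ?_
  intro u hu
  apply hWmem
  intro i
  have h1 := autV_sub_pow (p := p) (σ := ((X.dat hgal).t (Fin.last e) : K ≃ₐ[F] K))
    (X.stabM hgal _) (a i)
  have h2 : (X.dat hgal).T (X.rep hgal) (Fin.last e) =
    autV p ((X.dat hgal).t (Fin.last e) : K ≃ₐ[F] K) X.Z.M (X.stabM hgal _) - 1 := rfl
  have h3 : (X.dat hgal).T (X.rep hgal) i.castSucc u =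
    autV p ((X.dat hgal).t i.castSucc : K ≃ₐ[F] K) X.Z.M (X.stabM hgal _) u - u := rfl
  rw [h2, h1, h3, hu i]
  rfl

end

theorem rank_gradient (z : ℕ → F) (hz : ∀ k, IsPrimitiveRoot (z k) (p ^ k))
    (hz' : ∀ k, z (k + 1) ^ p = z k) (Cx : Ctx p F K (algebraMap F K (z 1))) {n : ℕ}
    (hn : Nat.card (PC p (⊥ : IntermediateField F K)) = p ^ n) (h1 : 1 ≤ n) :
    ∃ r : ℕ,
      (∀ E : IntermediateField F K, FiniteDimensional F E →
        ∃ m, Nat.card (PC p E) = p ^ m ∧ r * finrank F E + 1 ≤ m) ∧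
      (∀ ε : ℝ, 0 < ε → ∃ E : IntermediateField F K, FiniteDimensional F E ∧
        ∃ m : ℕ, Nat.card (PC p E) = p ^ m ∧ (m : ℝ) - 1 ≤ (r + ε) * finrank F E) ∧
      (r = 0 → 2 ≤ n → Concl F K) := by
  classical
  have hp := Cx.hp
  have := Cx.pc.gal
  have hζE : ∀ E : IntermediateField F K, algebraMap F K (z 1) ∈ E := fun E => E.algebraMap_mem _
  have hneg : ∀ E : IntermediateField F K, (-1 : K) ∈ TT p E := by
    intro E
    rcases hp.eq_two_or_odd' with h2 | hodd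
    · subst h2
      refine ⟨neg_ne_zero.mpr one_ne_zero, algebraMap F K (z 2), E.algebraMap_mem _, ?_⟩
      rw [← map_pow, hz' 1]
      have h3 := (hz 1)
      rw [pow_one] at h3
      have h4 := h3.eq_neg_one_of_two_right
      rw [h4, map_neg, map_one]
    · exact ⟨neg_ne_zero.mpr one_ne_zero, -1, E.neg_mem E.one_mem, by rw [hodd.neg_one_pow]⟩
  -- cardinalities
  have hcard : ∀ E : IntermediateField F K, FiniteDimensional F E →
      ∃ m, Nat.card (PC p E) = p ^ m ∧ n ≤ m := by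
    intro E hE
    obtain ⟨m, hm, -⟩ := card_schreier Cx (hζE ⊥) (bot_le : ⊥ ≤ E) hn (μ := finrank F E)
      (by rw [IntermediateField.finrank_bot, one_mul])
    exact ⟨m, hm, card_mono Cx (hz 2) (hζE ⊥) bot_le hn hm⟩
  let S : Set ℕ := {r | ∃ (E : IntermediateField F K) (_ : FiniteDimensional F E)
    (hgal : ∀ (σ : K ≃ₐ[F] K), ∀ x ∈ E, σ x ∈ E) (s : ℕ)
    (φ : E.fixingSubgroup → (Fin s → ℤ_[p])) (X : KD E φ), Nat.card (PC p E) = p ^ s ∧
    finrank (MvPowerSeries (Fin s) (ZMod p)) (DR (X.sm hgal).ln) = r * finrank F E}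
  -- every finite Galois extension gives an element
  have hmem : ∀ (E : IntermediateField F K) (_ : FiniteDimensional F E)
      (_ : ∀ (σ : K ≃ₐ[F] K), ∀ x ∈ E, σ x ∈ E) (m : ℕ), Nat.card (PC p E) = p ^ m →
      ∃ r ∈ S, r * finrank F E + 1 ≤ m := by
    intro E hE hgal m hm
    obtain ⟨φ, X⟩ := exists_KD Cx E z hz hz' hm
    obtain ⟨m', hm', hnm⟩ := hcard E hE
    have hmm : m' = m := Nat.pow_right_injective hp.two_le (hm'.symm.trans hm)
    obtain ⟨r, hr⟩ := X.dvd Cx (hz 2) (hζE E) hgal hm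
    rw [mul_comm] at hr
    refine ⟨r, ⟨E, hE, hgal, m, φ, X, hm, hr⟩, ?_⟩
    rw [← hr]
    exact X.rank_le Cx (hζE E) hgal hm (by omega)
  have hne : S.Nonempty := by
    obtain ⟨r, hr, -⟩ := hmem ⊥ inferInstance (by
      intro σ x hx
      obtain ⟨y, rfl⟩ := IntermediateField.mem_bot.mp hx
      rw [σ.commutes]
      exact (⊥ : IntermediateField F K).algebraMap_mem y) n hn
    exact ⟨r, hr⟩
  refine ⟨sInf S, ?_, ?_, ?_⟩
  · intro E' hE'
    obtain ⟨m', hm', hnm'⟩ := hcard E' hE'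
    refine ⟨m', hm', ?_⟩
    obtain ⟨E, hle, hE, hgal⟩ := exists_gal E'
    obtain ⟨μ, hμ⟩ : ∃ μ, finrank F E = finrank F E' * μ := by
      have h2 : finrank F E' ∣ finrank F E := IntermediateField.finrank_dvd_of_le_right hle
      exact h2
    obtain ⟨m, hm, hm2⟩ := card_schreier Cx (hζE E') hle hm' hμ
    obtain ⟨r, hr, hr2⟩ := hmem E hE hgal m hm
    have h3 : sInf S ≤ r := Nat.sInf_le hr
    have hμ0 : 0 < μ := by
      have : 0 < finrank F E := finrank_pos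
      rw [hμ] at this
      exact Nat.pos_of_mul_pos_left this
    have h4 : r * (finrank F E' * μ) ≤ μ * (m' - 1) := by rw [← hμ]; omega
    have h5 : μ * (r * finrank F E') ≤ μ * (m' - 1) := by
      calc μ * (r * finrank F E') = r * (finrank F E' * μ) := by ring
        _ ≤ _ := h4
    have h6 := Nat.le_of_mul_le_mul_left h5 hμ0
    have h7 : sInf S * finrank F E' ≤ r * finrank F E' := Nat.mul_le_mul_right _ h3
    omega
  · intro ε hε
    obtain ⟨E, hE, hgal, s, φ, X, hs, hr⟩ := Nat.sInf_mem hne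
    obtain ⟨m', hm', hnm⟩ := hcard E hE
    have hmm : m' = s := Nat.pow_right_injective hp.two_le (hm'.symm.trans hs)
    exact X.approx Cx (hζE E) hgal hs (by omega) hr hε
  · intro h0 h2
    obtain ⟨E, hE, hgal, s, φ, X, hs, hr⟩ := Nat.sInf_mem hne
    rw [h0, zero_mul] at hr
    obtain ⟨m', hm', hnm⟩ := hcard E hE
    have hmm : m' = s := Nat.pow_right_injective hp.two_le (hm'.symm.trans hs)
    obtain ⟨e, rfl⟩ : ∃ e, s = e + 1 := ⟨s - 1, by omega⟩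
    exact X.concl Cx (hζE E) (hneg E) hgal hs (by omega) hr

end Pool.Agent.Helper74.RG
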