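import Mathlib

/-!
# Compatible systems of roots of unity
-/

set_option autoImplicit false

namespace Pool.Agent.Helper74.RG

theorem compat_step {F : Type} [Field F] {p : ℕ} (hp : p.Prime)
    (h : ∀ k : ℕ, ∃ ζ : F, IsPrimitiveRoot ζ (p ^ k)) (k : ℕ) (w : F)
    (hw : IsPrimitiveRoot w (p ^ k)) :
    ∃ w' : F, IsPrimitiveRoot w' (p ^ (k + 1)) ∧ w' ^ p = w := by
  obtain ⟨u, hu⟩ := h (k + 1)
  have hup : IsPrimitiveRoot (u ^ p) (p ^ k) :=
    hu.pow (pow_pos hp.pos _) (by rw [pow_succ, mul_comm])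
  have : NeZero (p ^ k) := ⟨pow_ne_zero _ hp.ne_zero⟩
  obtain ⟨i, -, hi⟩ := hup.eq_pow_of_pow_eq_one hw.pow_eq_one
  rcases Nat.eq_zero_or_pos k with rfl | hk
  · refine ⟨u, hu, ?_⟩
    rw [pow_zero, IsPrimitiveRoot.one_right_iff] at hup hw
    rw [hup, hw]
  · have hc : Nat.Coprime i (p ^ k) := by
      rw [← hi] at hw
      exact (hup.pow_iff_coprime (pow_pos hp.pos _) i).mp hw
    have hc' : Nat.Coprime i p := Nat.Coprime.coprime_dvd_right (dvd_pow_self p hk.ne') hc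
    refine ⟨u ^ i, hu.pow_of_coprime i (Nat.Coprime.pow_right _ hc'), ?_⟩
    rw [← hi, ← pow_mul, ← pow_mul, mul_comm]

theorem exists_compat {F : Type} [Field F] {p : ℕ} (hp : p.Prime)
    (h : ∀ k : ℕ, ∃ ζ : F, IsPrimitiveRoot ζ (p ^ k)) :
    ∃ z : ℕ → F, (∀ k, IsPrimitiveRoot (z k) (p ^ k)) ∧ ∀ k, z (k + 1) ^ p = z k := by
  let g : (k : ℕ) → {w : F // IsPrimitiveRoot w (p ^ k)} := fun k =>
    Nat.rec (motive := fun k => {w : F // IsPrimitiveRoot w (p ^ k)})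
      ⟨1, by rw [pow_zero]; exact IsPrimitiveRoot.one⟩
      (fun k w => ⟨(compat_step hp h k w.1 w.2).choose,
        (compat_step hp h k w.1 w.2).choose_spec.1⟩) k
  refine ⟨fun k => (g k).1, fun k => (g k).2, fun k => ?_⟩
  exact (compat_step hp h k (g k).1 (g k).2).choose_spec.2

end Pool.Agent.Helper74.RG
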